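import Pool.Agent.H33.Four.Alg

set_option autoImplicit false

/-!
# MP_fe58d8_pr, four-leg formula, JOB FL2a: linear relations of the four-leg functions
(specification: helper63; proofs of this file: helper51)
-/

namespace Pool.Agent.H63.Four

open Pool.Agent.H51.TA Finset

open FB

namespace Aux

section frm

variable {L L' : ℕ} [NeZero L] [NeZero L']

/-- the bilinear form with the kernel `S` -/
noncomputable def frm (S : Pat L → Pat L' → ℂ) (v : Pat L → ℂ) (w : Pat L' → ℂ) : ℂ :=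
  ∑ π, ∑ π', v π * w π' * S π π'

variable (S : Pat L → Pat L' → ℂ)

theorem frm_eq (v : Pat L → ℂ) (w : Pat L' → ℂ) :
    frm S v w = ∑ π, v π * ∑ π', w π' * S π π' := by
  unfold frm
  refine Finset.sum_congr rfl fun π _ => ?_
  rw [Finset.mul_sum]
  exact Finset.sum_congr rfl fun π' _ => by ring

theorem frm_eq' (v : Pat L → ℂ) (w : Pat L' → ℂ) :
    frm S v w = ∑ π', w π' * ∑ π, v π * S π π' := by
  unfold frm
  rw [Finset.sum_comm]
  refine Finset.sum_congr rfl fun π _ => ?_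
  rw [Finset.mul_sum]
  exact Finset.sum_congr rfl fun π' _ => by ring

theorem frm_add_left (x y : ℂ) (v v' : Pat L → ℂ) (w : Pat L' → ℂ) :
    frm S (fun π => x * v π + y * v' π) w = x * frm S v w + y * frm S v' w := by
  unfold frm
  simp_rw [Finset.mul_sum, ← Finset.sum_add_distrib]
  exact Finset.sum_congr rfl fun π _ => Finset.sum_congr rfl fun π' _ => by ring

theorem frm_add_right (x y : ℂ) (v : Pat L → ℂ) (w w' : Pat L' → ℂ) :
    frm S v (fun π => x * w π + y * w' π) = x * frm S v w + y * frm S v w' := by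
  unfold frm
  simp_rw [Finset.mul_sum, ← Finset.sum_add_distrib]
  exact Finset.sum_congr rfl fun π _ => Finset.sum_congr rfl fun π' _ => by ring

theorem frm_smul_left (x : ℂ) (v : Pat L → ℂ) (w : Pat L' → ℂ) :
    frm S (fun π => x * v π) w = x * frm S v w := by
  unfold frm
  simp_rw [Finset.mul_sum]
  exact Finset.sum_congr rfl fun π _ => Finset.sum_congr rfl fun π' _ => by ring

theorem frm_smul_right (x : ℂ) (v : Pat L → ℂ) (w : Pat L' → ℂ) :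
    frm S v (fun π => x * w π) = x * frm S v w := by
  unfold frm
  simp_rw [Finset.mul_sum]
  exact Finset.sum_congr rfl fun π _ => Finset.sum_congr rfl fun π' _ => by ring

theorem frm_kill_left (i : ℤ) (h : ∀ π π', S (e i π) π' = 0) (v : Pat L → ℂ) (w : Pat L' → ℂ) :
    frm S (eV i v) w = 0 := by
  rw [frm_eq, sum_eV i v (fun α => ∑ π', w π' * S α π')]
  refine Finset.sum_eq_zero fun π _ => ?_
  rw [Finset.sum_eq_zero, mul_zero]
  intro π' _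
  rw [h, mul_zero]

theorem frm_kill_right (i : ℤ) (h : ∀ π π', S π (e i π') = 0) (v : Pat L → ℂ) (w : Pat L' → ℂ) :
    frm S v (eV i w) = 0 := by
  rw [frm_eq', sum_eV i w (fun α => ∑ π, v π * S π α)]
  refine Finset.sum_eq_zero fun π _ => ?_
  rw [Finset.sum_eq_zero, mul_zero]
  intro π' _
  rw [h, mul_zero]

theorem frm_adj (i j : ℤ) (h : ∀ π π', S (e i π) π' = S π (e j π')) (v : Pat L → ℂ)
    (w : Pat L' → ℂ) : frm S (eV i v) w = frm S v (eV j w) := by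
  rw [frm_eq, sum_eV i v (fun α => ∑ π', w π' * S α π'), frm_eq]
  refine Finset.sum_congr rfl fun π _ => ?_
  rw [sum_eV j w (fun α => S π α)]
  congr 1
  exact Finset.sum_congr rfl fun π' _ => by rw [h]

theorem frm_eV_eV (i j : ℤ) (h : ∀ π π', S (e i π) π' = S π (e j π')) (v : Pat L → ℂ)
    (w : Pat L' → ℂ) : frm S (eV i v) (eV j w) = frm S v (eV j w) := by
  rw [frm_adj S i j h, eV_eV]

/-- exchange of two legs of the lower state -/
theorem frm_left {Φ : (Fin L → ℂ) → Pat L → ℂ} (hΦ : EX Set.univ Φ) (a : Fin L → ℂ)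
    (w : Pat L' → ℂ) (i : ℕ) (hi : i + 1 < L) (hS : ∀ π π', S (e (i : ℤ) π) π' = 0) :
    D (a ⟨i, by omega⟩) (a ⟨i + 1, hi⟩) *
        frm S (Φ (a ∘ Equiv.swap ⟨i, by omega⟩ ⟨i + 1, hi⟩)) w =
      D (a ⟨i + 1, hi⟩) (a ⟨i, by omega⟩) * frm S (Φ a) w := by
  rw [← frm_smul_left, ex_apply hΦ a i hi, frm_add_left, frm_kill_left S _ hS, mul_zero, add_zero]

/-- exchange of two legs of the upper state -/
theorem frm_right {Φ : (Fin L' → ℂ) → Pat L' → ℂ} (hΦ : EX Set.univ Φ) (a : Fin L' → ℂ)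
    (v : Pat L → ℂ) (i : ℕ) (hi : i + 1 < L') (hS : ∀ π π', S π (e (i : ℤ) π') = 0) :
    D (a ⟨i, by omega⟩) (a ⟨i + 1, hi⟩) *
        frm S v (Φ (a ∘ Equiv.swap ⟨i, by omega⟩ ⟨i + 1, hi⟩)) =
      D (a ⟨i + 1, hi⟩) (a ⟨i, by omega⟩) * frm S v (Φ a) := by
  rw [← frm_smul_right, ex_apply hΦ a i hi, frm_add_right, frm_kill_right S _ hS, mul_zero,
    add_zero]

/-- exchange of two matched strands -/
theorem frm_exchange {Φ : (Fin L → ℂ) → Pat L → ℂ} (hΦ : EX Set.univ Φ)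
    {Ψ : (Fin L' → ℂ) → Pat L' → ℂ} (hΨ : EX Set.univ Ψ) (a : Fin L → ℂ) (b : Fin L' → ℂ)
    (i j : ℕ) (hi : i + 1 < L) (hj : j + 1 < L')
    (hS : ∀ π π', S (e (i : ℤ) π) π' = S π (e (j : ℤ) π')) (x y : ℂ)
    (hx : a ⟨i, by omega⟩ = x) (hy : a ⟨i + 1, hi⟩ = y)
    (hx' : b ⟨j, by omega⟩ = 1 - x) (hy' : b ⟨j + 1, hj⟩ = 1 - y) (h1 : D x y ≠ 0)
    (h2 : D y x ≠ 0) :
    frm S (Φ (a ∘ Equiv.swap ⟨i, by omega⟩ ⟨i + 1, hi⟩))
      (Ψ (b ∘ Equiv.swap ⟨j, by omega⟩ ⟨j + 1, hj⟩)) = frm S (Φ a) (Ψ b) := by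
  have e1 := ex_apply hΦ a i hi
  have e2 := ex_apply hΨ b j hj
  rw [hx, hy] at e1
  rw [hx', hy', D_refl, D_refl] at e2
  have h3 : frm S
      (fun α => D x y * Φ (a ∘ Equiv.swap ⟨i, by omega⟩ ⟨i + 1, hi⟩) α)
      (fun α => D y x * Ψ (b ∘ Equiv.swap ⟨j, by omega⟩ ⟨j + 1, hj⟩) α) =
      frm S (fun α => D y x * Φ a α + (x - y) * eV (i : ℤ) (Φ a) α)
       (fun α => D x y * Ψ b α + (1 - x - (1 - y)) * eV (j : ℤ) (Ψ b) α) := by
    rw [e1, e2]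
  rw [frm_smul_left, frm_smul_right, frm_add_left, frm_add_right, frm_add_right,
    frm_eV_eV S i j hS, frm_adj S i j hS] at h3
  have h6 : D x y - D y x = x - y := by unfold D; ring
  generalize D x y = p at h1 h3 h6
  generalize D y x = q at h2 h3 h6
  have h7 : x = y + (p - q) := by rw [h6]; ring
  subst h7
  have h8 := mul_ne_zero h1 h2
  refine mul_left_cancel₀ h8 ?_
  linear_combination h3

end frm

theorem perm_inv_D {m : ℕ} (f : (Fin m → ℂ) → ℂ)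
    (h : ∀ (a : Fin m → ℂ) (i : ℕ) (hi : i + 1 < m),
      D (a ⟨i, by omega⟩) (a ⟨i + 1, hi⟩) ≠ 0 → D (a ⟨i + 1, hi⟩) (a ⟨i, by omega⟩) ≠ 0 →
      f (a ∘ Equiv.swap ⟨i, by omega⟩ ⟨i + 1, hi⟩) = f a)
    (s : Equiv.Perm (Fin m)) (a : Fin m → ℂ) (ha : ∀ i j, i ≠ j → D (a i) (a j) ≠ 0) :
    f (a ∘ s) = f a := by
  rcases Nat.eq_zero_or_pos m with rfl | hL
  · congr 1; funext i; exact i.elim0
  · obtain ⟨m, rfl⟩ : ∃ k, m = k + 1 := ⟨m - 1, by omega⟩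
    have hs : s ∈ Submonoid.closure (Set.range fun i : Fin m => Equiv.swap i.castSucc i.succ) := by
      rw [Equiv.Perm.mclosure_swap_castSucc_succ]; trivial
    induction hs using Submonoid.closure_induction generalizing a with
    | mem x hx =>
      obtain ⟨i, rfl⟩ := hx
      have hne : i.castSucc ≠ i.succ := by
        intro h
        have := congrArg Fin.val h
        simp at this
      exact h a i (by omega) (ha _ _ hne) (ha _ _ hne.symm)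
    | one => rfl
    | mul x y _ _ hx hy =>
      have : a ∘ (x * y : Equiv.Perm (Fin (m + 1))) = (a ∘ x) ∘ y := rfl
      rw [this, hy (a ∘ x) (fun i j hij => ha _ _ (x.injective.ne hij)), hx _ ha]

theorem cons_swap {m : ℕ} (x : ℂ) (Z : Fin m → ℂ) (i j : Fin m) :
    (Fin.cons x (Z ∘ Equiv.swap i j) : Fin (m + 1) → ℂ) =
      (Fin.cons x Z : Fin (m + 1) → ℂ) ∘ Equiv.swap i.succ j.succ := by
  funext k
  refine Fin.cases ?_ (fun k => ?_) k
  · rw [Function.comp_apply, Equiv.swap_apply_of_ne_of_ne (Fin.succ_ne_zero _).symm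
      (Fin.succ_ne_zero _).symm]
    rfl
  · rw [Function.comp_apply, (Fin.succ_injective m).swap_apply]
    rfl

theorem refl_swap {m : ℕ} (b : Fin m → ℂ) (i j : Fin m) :
    (fun k => 1 - (b ∘ Equiv.swap i j) k) = (fun k => 1 - b k) ∘ Equiv.swap i j := rfl

theorem cons2_tail_swap {n : ℕ} (x y : ℂ) (Z : Fin (2 * n) → ℂ) (i : ℕ) (hi : i + 1 < 2 * n) :
    cons2 x y (Z ∘ Equiv.swap ⟨i, by omega⟩ ⟨i + 1, hi⟩) =
      cons2 x y Z ∘ Equiv.swap ⟨i + 2, by omega⟩ ⟨i + 2 + 1, by omega⟩ := by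
  unfold cons2
  rw [cons_swap, cons_swap]
  rfl

theorem cons1_tail_swap {n : ℕ} (x : ℂ) (Z : Fin (2 * n + 1) → ℂ) (i : ℕ)
    (hi : i + 1 < 2 * n + 1) :
    cons1 x (Z ∘ Equiv.swap ⟨i, by omega⟩ ⟨i + 1, hi⟩) =
      cons1 x Z ∘ Equiv.swap ⟨i + 1, by omega⟩ ⟨i + 1 + 1, by omega⟩ := by
  unfold cons1
  rw [cons_swap]
  rfl

theorem cons3_tail_swap {n : ℕ} (x y z : ℂ) (Z : Fin (2 * n + 1) → ℂ) (i : ℕ)
    (hi : i + 1 < 2 * n + 1) :
    cons3 x y z (Z ∘ Equiv.swap ⟨i, by omega⟩ ⟨i + 1, hi⟩) =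
      cons3 x y z Z ∘ Equiv.swap ⟨i + 3, by omega⟩ ⟨i + 3 + 1, by omega⟩ := by
  unfold cons3 cons2
  rw [cons_swap, cons_swap, cons_swap]
  rfl

theorem cons3_swap01 {n : ℕ} (x y z : ℂ) (Z : Fin (2 * n + 1) → ℂ) :
    cons3 x y z Z ∘ Equiv.swap ⟨0, by omega⟩ ⟨0 + 1, by omega⟩ = cons3 y x z Z := by
  unfold cons3
  exact FB.cons2_swap x y _ _ _

theorem cons3_swap12 {n : ℕ} (x y z : ℂ) (Z : Fin (2 * n + 1) → ℂ) :
    cons3 x y z Z ∘ Equiv.swap ⟨1, by omega⟩ ⟨1 + 1, by omega⟩ = cons3 x z y Z := by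
  funext i
  rcases i with ⟨i, hi⟩
  rcases i with _ | _ | _ | i
  · rw [Function.comp_apply, Equiv.swap_apply_of_ne_of_ne]
    · rfl
    · intro h; simp at h
    · intro h; simp at h
  · rw [Function.comp_apply]
    have h1 : (⟨0 + 1, hi⟩ : Fin (2 * (n + 1 + 1))) = ⟨1, by omega⟩ := rfl
    rw [h1, Equiv.swap_apply_left]; rfl
  · rw [Function.comp_apply]
    have h1 : (⟨0 + 1 + 1, hi⟩ : Fin (2 * (n + 1 + 1))) = ⟨1 + 1, by omega⟩ := rfl
    rw [h1, Equiv.swap_apply_right]; rfl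
  · rw [Function.comp_apply, Equiv.swap_apply_of_ne_of_ne]
    · rfl
    · intro h; simp at h
    · intro h; simp at h

theorem I4_e_left {L : ℕ} (hL : 2 ≤ L) (π π' : Pat L) : I4 (e 0 π) π' = 0 :=
  if_neg (four_e_left hL π π')

theorem I4_e_right {L : ℕ} (hL : 2 ≤ L) (π π' : Pat L) : I4 π (e 0 π') = 0 :=
  if_neg (four_e_right hL π π')

theorem I4_congr {L L' : ℕ} {π π' : Pat L} {ρ ρ' : Pat L'} (h : FourLeg π π' ↔ FourLeg ρ ρ') :
    I4 π π' = I4 ρ ρ' := by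
  by_cases h1 : FourLeg π π'
  · exact (if_pos h1).trans (if_pos (h.mp h1)).symm
  · exact (if_neg h1).trans (if_neg (fun h2 => h1 (h.mpr h2))).symm

end Aux

open Aux

section FL2

variable {Φ : Fam} (hΦ : ∀ (n : ℕ) [NeZero n], IsSol (Φ n))
include hΦ

theorem G22_base (x0 x1 y0 y1 : ℂ) (Z : Fin (2 * 0) → ℂ) :
    G22 Φ 0 x0 x1 y0 y1 Z = D x0 x1 * D y1 y0 := by
  have hrot : (chi 1).rot = e 0 (chi 1) := by
    refine pat_two_ext _ _ ?_
    rw [chi_one_rot_t, e_t (by norm_num)]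
    norm_num [eFun]
  have h1 : ∀ π' : Pat (2 * 1), I4 (chi 1).rot π' = 0 := fun π' => by
    rw [hrot]; exact I4_e_left (by norm_num) _ _
  have h2 : ∀ π : Pat (2 * 1), I4 π (chi 1).rot = 0 := fun π => by
    rw [hrot]; exact I4_e_right (by norm_num) _ _
  have h3 : I4 (chi 1) (chi 1) = 1 := if_pos four_chi_one
  change ∑ π : Pat (2 * 1), ∑ π' : Pat (2 * 1),
    Φ 1 (cons2 x0 x1 Z) π * Φ 1 (fun i => 1 - cons2 y0 y1 Z i) π' * I4 π π' = _
  rw [univ_two, Finset.sum_pair chi_ne_rot, Finset.sum_pair chi_ne_rot,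
    Finset.sum_pair chi_ne_rot, h1, h1, h2, h3, (hΦ 1).chi, (hΦ 1).chi, Delta_one, Delta_one,
    D_refl]
  simp only [mul_zero, mul_one, add_zero]
  rfl

theorem G22_low (n : ℕ) (x0 x1 y0 y1 : ℂ) (Z : Fin (2 * n) → ℂ) :
    D x0 x1 * G22 Φ n x1 x0 y0 y1 Z = D x1 x0 * G22 Φ n x0 x1 y0 y1 Z := by
  have h := frm_left (I4 (L := 2 * (n + 1))) (hΦ (n + 1)).ex (cons2 x0 x1 Z)
    (Φ (n + 1) (fun i => 1 - cons2 y0 y1 Z i)) 0 (by omega)
    (fun π π' => I4_e_left (by omega) π π')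
  rw [FB.cons2_swap, FB.cons2_zero, FB.cons2_one] at h
  exact h

theorem G22_up (n : ℕ) (x0 x1 y0 y1 : ℂ) (Z : Fin (2 * n) → ℂ) :
    D y1 y0 * G22 Φ n x0 x1 y1 y0 Z = D y0 y1 * G22 Φ n x0 x1 y0 y1 Z := by
  have h := frm_right (I4 (L := 2 * (n + 1))) (hΦ (n + 1)).ex (fun i => 1 - cons2 y0 y1 Z i)
    (Φ (n + 1) (cons2 x0 x1 Z)) 0 (by omega)
    (fun π π' => I4_e_right (by omega) π π')
  rw [← refl_swap, FB.cons2_swap, FB.cons2_zero, FB.cons2_one, D_refl, D_refl] at h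
  exact h

theorem G13_up01 (n : ℕ) (x y0 y1 y2 : ℂ) (Z : Fin (2 * n + 1) → ℂ) :
    D y1 y0 * G13 Φ n x y1 y0 y2 Z = D y0 y1 * G13 Φ n x y0 y1 y2 Z := by
  have h := frm_right (fun (β : Pat (2 * (n + 1))) (π' : Pat (2 * (n + 1 + 1))) =>
      I4 (e 1 (insN β)) π') (hΦ (n + 1 + 1)).ex (fun i => 1 - cons3 y0 y1 y2 Z i)
    (Φ (n + 1) (cons1 x Z)) 0 (by omega)
    (fun π π' => I4_e_right (by omega) _ π')
  rw [← refl_swap, cons3_swap01] at h
  change D (1 - y0) (1 - y1) * _ = D (1 - y1) (1 - y0) * _ at h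
  rw [D_refl, D_refl] at h
  exact h

theorem G13_up12 (n : ℕ) (x y0 y1 y2 : ℂ) (Z : Fin (2 * n + 1) → ℂ) :
    D y2 y1 * G13 Φ n x y0 y2 y1 Z = D y1 y2 * G13 Φ n x y0 y1 y2 Z := by
  have h := frm_right (fun (β : Pat (2 * (n + 1))) (π' : Pat (2 * (n + 1 + 1))) =>
      I4 (e 1 (insN β)) π') (hΦ (n + 1 + 1)).ex (fun i => 1 - cons3 y0 y1 y2 Z i)
    (Φ (n + 1) (cons1 x Z)) 1 (by omega)
    (fun β π' => if_neg (four_ins_kill (L := 2 * (n + 1)) (by omega) β π'))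
  rw [← refl_swap, cons3_swap12] at h
  change D (1 - y1) (1 - y2) * _ = D (1 - y2) (1 - y1) * _ at h
  rw [D_refl, D_refl] at h
  exact h

theorem G22_perm (n : ℕ) (x0 x1 y0 y1 : ℂ) (Z : Fin (2 * n) → ℂ)
    (hD : ∀ i j, i ≠ j → D (Z i) (Z j) ≠ 0) (σ : Equiv.Perm (Fin (2 * n))) :
    G22 Φ n x0 x1 y0 y1 (Z ∘ σ) = G22 Φ n x0 x1 y0 y1 Z := by
  refine perm_inv_D (fun Z => G22 Φ n x0 x1 y0 y1 Z) ?_ σ Z hD
  intro Z i hi h1 h2
  have h := frm_exchange (I4 (L := 2 * (n + 1))) (hΦ (n + 1)).ex (hΦ (n + 1)).ex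
    (cons2 x0 x1 Z) (fun i => 1 - cons2 y0 y1 Z i) (i + 2) (i + 2) (by omega) (by omega)
    (fun π π' => I4_congr (four_transfer π π' (i + 2) (by omega) (by omega)))
    (Z ⟨i, by omega⟩) (Z ⟨i + 1, hi⟩) rfl rfl rfl rfl h1 h2
  rw [← refl_swap, ← cons2_tail_swap, ← cons2_tail_swap] at h
  exact h

theorem G13_perm (n : ℕ) (x y0 y1 y2 : ℂ) (Z : Fin (2 * n + 1) → ℂ)
    (hD : ∀ i j, i ≠ j → D (Z i) (Z j) ≠ 0) (σ : Equiv.Perm (Fin (2 * n + 1))) :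
    G13 Φ n x y0 y1 y2 (Z ∘ σ) = G13 Φ n x y0 y1 y2 Z := by
  refine perm_inv_D (fun Z => G13 Φ n x y0 y1 y2 Z) ?_ σ Z hD
  intro Z i hi h1 h2
  have h := frm_exchange (fun (β : Pat (2 * (n + 1))) (π' : Pat (2 * (n + 1 + 1))) =>
      I4 (e 1 (insN β)) π') (hΦ (n + 1)).ex (hΦ (n + 1 + 1)).ex
    (cons1 x Z) (fun i => 1 - cons3 y0 y1 y2 Z i) (i + 1) (i + 3) (by omega) (by omega)
    (fun β π' => I4_congr (by
      have := four_ins_transfer (L := 2 * (n + 1)) (by omega) β π' (i + 1) (by omega) (by omega)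
      have h4 : (((i + 1 : ℕ) : ℤ) + 2) = ((i + 3 : ℕ) : ℤ) := by push_cast; ring
      rw [h4] at this
      exact this))
    (Z ⟨i, by omega⟩) (Z ⟨i + 1, hi⟩) rfl rfl rfl rfl h1 h2
  rw [← refl_swap, ← cons3_tail_swap, ← cons1_tail_swap] at h
  exact h

end FL2

end Pool.Agent.H63.Four
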